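import Mathlib
import Pool.Agent.Helper278.Defs

/-!
# Tracial von Neumann algebras: existential embeddings, the Haagerup property, property (T)
-/

set_option autoImplicit false

namespace Pool.Agent.K6.H14.EY

open scoped InnerProductSpace BoundedContinuousFunction

section trace

variable {A : Type} [NormedRing A] [StarRing A] [CStarRing A] [NormedAlgebra ℂ A] [StarModule ℂ A]

/-- `W` is the range of the isometric unital `*`-homomorphism `π`. -/
structure IsIsoOnto {H : Type} [NormedAddCommGroup H] [InnerProductSpace ℂ H] [CompleteSpace H]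
    (W : VonNeumannAlgebra H) (π : A → (H →L[ℂ] H)) : Prop where
  one : π 1 = 1
  add : ∀ x y, π (x + y) = π x + π y
  mul : ∀ x y, π (x * y) = π x * π y
  smul : ∀ (c : ℂ) x, π (c • x) = c • π x
  star : ∀ x, π (star x) = star (π x)
  isometry : ∀ x, ‖π x‖ = ‖x‖
  range : ∀ y, y ∈ W ↔ ∃ x, π x = y

/-- `(A, τ)` is a tracial von Neumann algebra: `τ` is a faithful tracial state on the C*-algebra `A`
and there is an isometric `*`-isomorphism `π` of `A` onto a von Neumann algebra `W` on a Hilbert
space, such that `τ` is normal, that is a countable sum of vector functionals. -/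
structure IsTracialVN (τ : A → ℂ) : Prop where
  add : ∀ x y, τ (x + y) = τ x + τ y
  smul : ∀ (c : ℂ) x, τ (c • x) = c * τ x
  one : τ 1 = 1
  tracial : ∀ x y, τ (x * y) = τ (y * x)
  faithful : ∀ x, τ (star x * x) = 0 → x = 0
  vonNeumann : ∃ (H : Type) (_ : NormedAddCommGroup H) (_ : InnerProductSpace ℂ H)
    (_ : CompleteSpace H) (W : VonNeumannAlgebra H) (π : A → (H →L[ℂ] H)) (ξ : ℕ → H),
    IsIsoOnto W π ∧ Summable (fun k => ‖ξ k‖ ^ 2) ∧ ∀ x, τ x = ∑' k, ⟪ξ k, π x (ξ k)⟫_ℂ

variable (τ : A → ℂ)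

/-- The 2-norm `‖x‖₂ = τ(x* x)^{1/2}`. -/
noncomputable def norm2 (x : A) : ℝ := Real.sqrt (τ (star x * x)).re

variable (A) in
/-- A II_1 factor (if `A` is a tracial von Neumann algebra): infinite dimensional with trivial
center. -/
structure IsIIOneFactor : Prop where
  center : ∀ z : A, (∀ x, z * x = x * z) → ∃ c : ℂ, z = c • (1 : A)
  infinite : ¬ FiniteDimensional ℂ A

/-- `φ` is a unital, trace preserving, completely positive map of `A` into itself which induces a
compact operator on `L²(A)`.  Complete positivity: the matrices with the entries `φ (xᵢ* xⱼ)` are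
positive, that is `τ(∑ yᵢ* φ(xᵢ* xⱼ) yⱼ) ≥ 0` for all `y` (`A` is dense in `L²(A)`).  Compactness:
the image of the unit ball of the 2-norm is totally bounded in the 2-norm.  (Trace preserving
positive maps are normal, as the trace is normal and faithful.) -/
structure IsCompactCP (φ : A → A) : Prop where
  add : ∀ x y, φ (x + y) = φ x + φ y
  smul : ∀ (c : ℂ) x, φ (c • x) = c • φ x
  one : φ 1 = 1
  trace : ∀ x, τ (φ x) = τ x
  cp : ∀ (k : ℕ) (x y : Fin k → A), ∃ r : ℝ, 0 ≤ r ∧
    τ (∑ i, ∑ j, star (y i) * φ (star (x i) * x j) * y j) = (r : ℂ)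
  compact : ∀ ε : ℝ, 0 < ε → ∃ F : Finset A, ∀ x : A, norm2 τ x ≤ 1 →
    ∃ y ∈ F, norm2 τ (φ x - y) < ε

/-- The Haagerup property: the identity is a limit, pointwise in the 2-norm, of (a net of) normal
unital trace preserving completely positive maps which induce compact operators on `L²(A)`. -/
def HasHaagerup : Prop :=
  ∀ (F : Finset A) (ε : ℝ), 0 < ε → ∃ φ : A → A, IsCompactCP τ φ ∧ ∀ x ∈ F, norm2 τ (φ x - x) < ε

/-- Normality of a map `L` of `A` to the operators on `K`: the vector functionals `x ↦ ⟨ξ, L x ξ⟩`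
are continuous at `0` for the 2-norm on the unit ball of the norm.  (On the unit ball of `A` the
2-norm defines the strong topology, and a functional is normal iff it is strongly continuous on the
unit ball.) -/
def IsNormalMap {K : Type} [NormedAddCommGroup K] [InnerProductSpace ℂ K]
    (L : A → (K →L[ℂ] K)) : Prop :=
  ∀ (ξ : K) (ε : ℝ), 0 < ε → ∃ δ : ℝ, 0 < δ ∧ ∀ x : A, ‖x‖ ≤ 1 → norm2 τ x < δ →
    ‖⟪ξ, L x ξ⟫_ℂ‖ < ε

/-- `K` is a Hilbert `A`-`A`-bimodule with the left action `L` and the right action `R`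
(`x ξ = L x ξ`, `ξ x = R x ξ`): `L` is a normal unital `*`-homomorphism, `R` a normal unital
`*`-antihomomorphism, and the ranges commute. -/
structure IsBimodule {K : Type} [NormedAddCommGroup K] [InnerProductSpace ℂ K]
    [CompleteSpace K] (L R : A → (K →L[ℂ] K)) : Prop where
  left_add : ∀ x y, L (x + y) = L x + L y
  left_smul : ∀ (c : ℂ) x, L (c • x) = c • L x
  left_one : L 1 = 1
  left_mul : ∀ x y, L (x * y) = L x * L y
  left_star : ∀ x, L (star x) = star (L x)
  right_add : ∀ x y, R (x + y) = R x + R y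
  right_smul : ∀ (c : ℂ) x, R (c • x) = c • R x
  right_one : R 1 = 1
  right_mul : ∀ x y, R (x * y) = R y * R x
  right_star : ∀ x, R (star x) = star (R x)
  comm : ∀ x y, L x * R y = R y * L x
  left_normal : IsNormalMap τ L
  right_normal : IsNormalMap τ R

/-- Property (T) of Connes and Jones: there are a finite set `F` in `A` and `δ > 0` such that every
Hilbert `A`-`A`-bimodule with a unit vector `ξ` with `‖x ξ - ξ x‖ < δ` for `x ∈ F` has a nonzero
central vector. -/
def HasPropertyT : Prop :=
  ∃ (F : Finset A) (δ : ℝ), 0 < δ ∧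
    ∀ (K : Type) [NormedAddCommGroup K] [InnerProductSpace ℂ K] [CompleteSpace K]
      (L R : A → (K →L[ℂ] K)), IsBimodule τ L R →
      ∀ ξ : K, ‖ξ‖ = 1 → (∀ x ∈ F, ‖L x ξ - R x ξ‖ < δ) →
        ∃ η : K, η ≠ 0 ∧ ∀ x, L x η = R x η

variable {τ} {B : Type} [NormedRing B] [StarRing B] [CStarRing B] [NormedAlgebra ℂ B]
  [StarModule ℂ B]

/-- The embedding `ι` of `(A, τ)` in `(B, σ)` is existential (with respect to the ultrafilter `U`):
there is a trace preserving embedding `β` of `B` into the tracial ultrapower `Q` of `A` along `U`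
(`Q` is the quotient of the algebra of bounded sequences, with the quotient map `π` and the trace
`ρ`, see `Pool.Agent.Helper278.IsTracialUltrapower`) such that `β ∘ ι` is the diagonal embedding of
`A`. -/
def IsExistential (τ : A → ℂ) (σ : B → ℂ) (ι : A →⋆ₐ[ℂ] B) (U : Ultrafilter ℕ) : Prop :=
  ∃ (Q : Type) (_ : Ring Q) (_ : StarRing Q) (_ : Algebra ℂ Q) (_ : StarModule ℂ Q)
    (π : (ℕ →ᵇ A) →⋆ₐ[ℂ] Q) (ρ : Q → ℂ), Pool.Agent.Helper278.IsTracialUltrapower τ U π ρ ∧
    ∃ β : B →⋆ₐ[ℂ] Q, (∀ x, ρ (β x) = σ x) ∧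
      ∀ x : A, β (ι x) = π (BoundedContinuousFunction.const ℕ x)

/-- `(A, τ)` is the group von Neumann algebra `L(G)` with the canonical unitaries `u g`: `u` is a
homomorphism to the unitary group of `A`, `τ (u g) = 0` for `g ≠ 1`, and the linear combinations of
the `u g` are dense in the 2-norm.  (This determines the tracial von Neumann algebra `(A, τ)`.) -/
structure IsGroupVN (τ : A → ℂ) {G : Type} [Group G] (u : G → A) : Prop where
  one : u 1 = 1
  mul : ∀ g h, u (g * h) = u g * u h
  star : ∀ g, star (u g) = u g⁻¹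
  trace : ∀ g, g ≠ 1 → τ (u g) = 0
  dense : ∀ (x : A) (ε : ℝ), 0 < ε → ∃ y ∈ Submodule.span ℂ (Set.range u), norm2 τ (x - y) < ε

end trace

section group

variable (G : Type) [Group G]

/-- Every nontrivial element has infinitely many conjugates. -/
def IsIcc : Prop := ∀ x : G, x ≠ 1 → {y : G | ∃ g : G, y = g * x * g⁻¹}.Infinite

/-- Every finitely generated subgroup is finite. -/
def IsLocallyFinite : Prop := ∀ S : Set G, S.Finite → (Subgroup.closure S : Set G).Finite

variable {G} in
/-- `ρ` is a unitary representation of `G`. -/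
structure IsUnitaryRep {K : Type} [NormedAddCommGroup K] [InnerProductSpace ℂ K]
    (ρ : G → (K →L[ℂ] K)) : Prop where
  one : ρ 1 = 1
  mul : ∀ g h, ρ (g * h) = ρ g * ρ h
  isometry : ∀ g x, ‖ρ g x‖ = ‖x‖

/-- Kazhdan's property (T): there are a finite set `S` and `ε > 0` such that every unitary
representation with a unit vector `x` with `‖ρ(s) x - x‖ < ε` for `s ∈ S` has a nonzero invariant
vector. -/
def KazhdanT : Prop :=
  ∃ S : Finset G, ∃ ε : ℝ, 0 < ε ∧
    ∀ (K : Type) [NormedAddCommGroup K] [InnerProductSpace ℂ K] [CompleteSpace K]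
      (ρ : G → (K →L[ℂ] K)), IsUnitaryRep ρ →
      (∃ x : K, ‖x‖ = 1 ∧ ∀ s ∈ S, ‖ρ s x - x‖ < ε) → ∃ x : K, x ≠ 0 ∧ ∀ g : G, ρ g x = x

variable {G}

/-- The inclusion of the subgroup `H` in `G` is existential with respect to `U`: there is an
embedding of `G` in the ultrapower `H^U` of the group `H` (the group of the germs along `U` of the
sequences in `H`) which restricts to the diagonal embedding of `H`. -/
def IsExistentialSubgroup (H : Subgroup G) (U : Ultrafilter ℕ) : Prop :=
  ∃ β : G →* Filter.Germ (U : Filter ℕ) H, Function.Injective β ∧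
    ∀ h : H, β (h : G) = ((h : H) : Filter.Germ (U : Filter ℕ) H)

end group

end Pool.Agent.K6.H14.EY
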