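import Pool.Agent.K6.H14.EY.Trans
import Pool.Agent.K6.H14.EX.TT

/-!
# `L(G)` has property (T) if `G` has

This is helper44's proof (`Pool.Agent.K6.H14.EX.TT`), with normality stated as continuity for the
2-norm on the unit ball.
-/

set_option autoImplicit false

namespace Pool.Agent.K6.H14.EY

open Pool.Agent.H504R3 (TVN)
open Pool.Agent.K6.H14.EX (tvn lamT S_KAP op_nonneg op_add op_smul norm2_nonneg norm2_smul)
open Pool.Agent.K6.H14.EX.TT (lamT_one lamT_mul star_lamT lamT_mul_inv lamT_inv_mul)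
open Filter Topology
open scoped InnerProductSpace

namespace TT

variable {G : Type} [Group G]

section bimod

variable {K : Type} [NormedAddCommGroup K] [InnerProductSpace ℂ K] [CompleteSpace K]
  (L R : (tvn G).E → (K →L[ℂ] K))

/-- the operator `ξ ↦ λ_g ξ λ_g*` -/
noncomputable def conjOp (g : G) : K →L[ℂ] K := L (lamT g) * R (lamT g⁻¹)

variable {L R}

theorem conjOp_one (hB : IsBimodule (tr (tvn G)) L R) : conjOp L R (1 : G) = 1 := by
  unfold conjOp
  rw [inv_one, lamT_one, hB.left_one, hB.right_one, one_mul]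

theorem conjOp_mul (hB : IsBimodule (tr (tvn G)) L R) (g h : G) :
    conjOp L R (g * h) = conjOp L R g * conjOp L R h := by
  unfold conjOp
  rw [mul_inv_rev, lamT_mul, lamT_mul, hB.left_mul, hB.right_mul]
  rw [mul_assoc, ← mul_assoc (L (lamT h)), hB.comm, mul_assoc, mul_assoc]

theorem star_conjOp (hB : IsBimodule (tr (tvn G)) L R) (g : G) :
    star (conjOp L R g) = conjOp L R g⁻¹ := by
  unfold conjOp
  rw [star_mul, ← hB.right_star, ← hB.left_star, star_lamT, star_lamT, hB.comm]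

/-- the unitary representation -/
noncomputable def conjRep (hB : IsBimodule (tr (tvn G)) L R) : G →* unitary (K →L[ℂ] K) where
  toFun g := ⟨conjOp L R g, by
    rw [Unitary.mem_iff, star_conjOp hB, ← conjOp_mul hB, ← conjOp_mul hB, inv_mul_cancel,
      mul_inv_cancel, conjOp_one hB]
    exact ⟨rfl, rfl⟩⟩
  map_one' := Subtype.ext (conjOp_one hB)
  map_mul' g h := Subtype.ext (conjOp_mul hB g h)

theorem right_unitary (hB : IsBimodule (tr (tvn G)) L R) (g : G) :
    R (lamT g) ∈ unitary (K →L[ℂ] K) := by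
  rw [Unitary.mem_iff, ← hB.right_star, star_lamT, ← hB.right_mul, ← hB.right_mul, lamT_inv_mul,
    lamT_mul_inv, hB.right_one]
  exact ⟨rfl, rfl⟩

theorem right_conj (hB : IsBimodule (tr (tvn G)) L R) (g : G) :
    R (lamT g) * conjOp L R g = L (lamT g) := by
  unfold conjOp
  rw [← mul_assoc, ← hB.comm, mul_assoc, ← hB.right_mul, lamT_inv_mul, hB.right_one, mul_one]

theorem right_conj_apply (hB : IsBimodule (tr (tvn G)) L R) (g : G) (ξ : K) :
    R (lamT g) (conjOp L R g ξ - ξ) = L (lamT g) ξ - R (lamT g) ξ := by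
  rw [map_sub]
  congr 1
  rw [← right_conj hB g]
  rfl

theorem norm_conj_sub (hB : IsBimodule (tr (tvn G)) L R) (g : G) (ξ : K) :
    ‖conjOp L R g ξ - ξ‖ = ‖L (lamT g) ξ - R (lamT g) ξ‖ := by
  rw [← right_conj_apply hB]
  exact (ContinuousLinearMap.norm_map_of_mem_unitary (right_unitary hB g) _).symm

end bimod

/-! ## Weak convergence -/

section weak

variable {K : Type} [NormedAddCommGroup K] [InnerProductSpace ℂ K] {L : (tvn G).E → (K →L[ℂ] K)}

theorem tendsto_inner (ha : ∀ x y, L (x + y) = L x + L y) (hs : ∀ (c : ℂ) x, L (c • x) = c • L x)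
    (hL : IsNormalMap (tr (tvn G)) L) {x : (tvn G).E} {y : ℕ → (tvn G).E}
    (hb : ∀ n, (tvn G).opNorm (y n) ≤ (tvn G).opNorm x)
    (h : Tendsto (fun n => (tvn G).norm2 (x - y n)) atTop (𝓝 0)) (ξ : K) :
    Tendsto (fun n => ⟪ξ, L (y n) ξ⟫_ℂ) atTop (𝓝 ⟪ξ, L x ξ⟫_ℂ) := by
  rw [Metric.tendsto_nhds]
  intro ε hε
  have hC : 0 ≤ (tvn G).opNorm x := op_nonneg _ _
  set c : ℝ := 1 / (2 * (tvn G).opNorm x + 1) with hc
  have hc0 : 0 < c := by positivity
  have hc1 : c ≤ 1 := by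
    rw [hc, div_le_one (by positivity)]
    linarith
  obtain ⟨δ, hδ, hd⟩ := hL ξ (c * ε) (by positivity)
  filter_upwards [h.eventually (gt_mem_nhds hδ)] with n hn
  have hcn : ‖(c : ℂ)‖ = c := by
    rw [Complex.norm_real, Real.norm_eq_abs, abs_of_pos hc0]
  have h1 : ‖(c : ℂ) • (x - y n)‖ ≤ 1 := by
    show (tvn G).opNorm ((c : ℂ) • (x - y n)) ≤ 1
    rw [op_smul, hcn]
    have h2 : (tvn G).opNorm (x - y n) ≤ (tvn G).opNorm x + (tvn G).opNorm (y n) :=
      norm_sub_le (x : (tvn G).H →L[ℂ] (tvn G).H) (y n : (tvn G).H →L[ℂ] (tvn G).H)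
    have h3 := hb n
    rw [hc, div_mul_eq_mul_div, one_mul, div_le_one (by positivity)]
    linarith
  have h2 : norm2 (tr (tvn G)) ((c : ℂ) • (x - y n)) < δ := by
    show (tvn G).norm2 ((c : ℂ) • (x - y n)) < δ
    rw [norm2_smul, hcn]
    have h3 := norm2_nonneg (tvn G) (x - y n)
    nlinarith
  have h3 := hd _ h1 h2
  have h4 : L (x - y n) = L x - L (y n) := by
    have h5 := ha (x - y n) (y n)
    rw [sub_add_cancel] at h5
    rw [h5, add_sub_cancel_right]
  rw [hs, h4] at h3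
  have h5 : ⟪ξ, ((c : ℂ) • (L x - L (y n))) ξ⟫_ℂ = (c : ℂ) * (⟪ξ, L x ξ⟫_ℂ - ⟪ξ, L (y n) ξ⟫_ℂ) := by
    rw [_root_.smul_apply, inner_smul_right, _root_.sub_apply,
      inner_sub_right]
  rw [h5, norm_mul, hcn] at h3
  rw [dist_comm, dist_eq_norm]
  exact lt_of_mul_lt_mul_left h3 hc0.le

theorem tendsto_inner' (ha : ∀ x y, L (x + y) = L x + L y) (hs : ∀ (c : ℂ) x, L (c • x) = c • L x)
    (hL : IsNormalMap (tr (tvn G)) L) {x : (tvn G).E} {y : ℕ → (tvn G).E}
    (hb : ∀ n, (tvn G).opNorm (y n) ≤ (tvn G).opNorm x)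
    (h : Tendsto (fun n => (tvn G).norm2 (x - y n)) atTop (𝓝 0)) (η ζ : K) :
    Tendsto (fun n => ⟪L (y n) η, ζ⟫_ℂ) atTop (𝓝 ⟪L x η, ζ⟫_ℂ) := by
  have h1 (ξ : K) : Tendsto (fun n => ⟪L (y n) ξ, ξ⟫_ℂ) atTop (𝓝 ⟪L x ξ, ξ⟫_ℂ) := by
    have h2 := (Complex.continuous_conj.tendsto _).comp (tendsto_inner ha hs hL hb h ξ)
    have e (z : (tvn G).E) : (starRingEnd ℂ) ⟪ξ, L z ξ⟫_ℂ = ⟪L z ξ, ξ⟫_ℂ := inner_conj_symm _ _
    rw [← e]
    refine h2.congr fun n => ?_
    exact e (y n)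
  have e (z : (tvn G).E) : ⟪L z η, ζ⟫_ℂ =
      (⟪L z (ζ + η), ζ + η⟫_ℂ - ⟪L z (ζ - η), ζ - η⟫_ℂ +
        Complex.I * ⟪L z (ζ + Complex.I • η), ζ + Complex.I • η⟫_ℂ -
        Complex.I * ⟪L z (ζ - Complex.I • η), ζ - Complex.I • η⟫_ℂ) / 4 :=
    inner_map_polarization (L z : K →ₗ[ℂ] K) ζ η
  rw [e]
  simp_rw [e]
  exact ((((h1 _).sub (h1 _)).add ((h1 _).const_mul _)).sub ((h1 _).const_mul _)).div_const _

end weak

end TT

open TT in
theorem hasPropertyT (hK : S_KAP) {G : Type} [Group G] (hT : EX.KazhdanT G) :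
    HasPropertyT (tr (tvn G)) := by
  classical
  obtain ⟨S, ε, hε, hS⟩ := hT
  refine ⟨S.image lamT, ε, hε, ?_⟩
  intro K _ _ _ L R hB ξ hξ hF
  obtain ⟨η, hη, hη'⟩ := hS K (conjRep hB) ⟨ξ, hξ, fun s hs => by
    have h1 := hF (lamT s) (Finset.mem_image_of_mem _ hs)
    rw [← norm_conj_sub hB] at h1
    exact h1⟩
  refine ⟨η, hη, ?_⟩
  have h1 (g : G) : L (lamT g) η = R (lamT g) η := by
    have h2 : conjOp L R g η = η := hη' g
    have h3 := right_conj_apply hB g η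
    rw [h2, sub_self, map_zero] at h3
    exact (sub_eq_zero.1 h3.symm)
  have hz (L' : (tvn G).E → (K →L[ℂ] K)) (hs : ∀ (c : ℂ) x, L' (c • x) = c • L' x) : L' 0 = 0 := by
    have := hs 0 0
    rwa [zero_smul, zero_smul] at this
  have h2 (y : (tvn G).E) (hy : y ∈ Submodule.span ℂ (Set.range (lamT (G := G)))) :
      L y η = R y η := by
    induction hy using Submodule.span_induction with
    | mem z hz =>
      obtain ⟨g, rfl⟩ := hz
      exact h1 g
    | zero => rw [hz L hB.left_smul, hz R hB.right_smul]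
    | add u v _ _ hu hv =>
      rw [hB.left_add, hB.right_add]
      change L u η + L v η = R u η + R v η
      rw [hu, hv]
    | smul c u _ hu =>
      rw [hB.left_smul, hB.right_smul]
      change c • L u η = c • R u η
      rw [hu]
  intro x
  have h3 (n : ℕ) : ∃ y ∈ Submodule.span ℂ (Set.range (lamT (G := G))),
      (tvn G).opNorm y ≤ (tvn G).opNorm x ∧ (tvn G).norm2 (x - y) < 1 / ((n : ℝ) + 1) :=
    hK G x _ (by positivity)
  choose y hy1 hy2 hy3 using h3
  have h4 : Tendsto (fun n => (tvn G).norm2 (x - y n)) atTop (𝓝 0) :=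
    squeeze_zero (fun n => norm2_nonneg _ _) (fun n => (hy3 n).le)
      tendsto_one_div_add_atTop_nhds_zero_nat
  refine ext_inner_right ℂ fun ζ => ?_
  have h5 := tendsto_inner' hB.left_add hB.left_smul hB.left_normal hy2 h4 η ζ
  have h6 := tendsto_inner' hB.right_add hB.right_smul hB.right_normal hy2 h4 η ζ
  refine tendsto_nhds_unique (h5.congr fun n => ?_) h6
  rw [h2 (y n) (hy1 n)]

end Pool.Agent.K6.H14.EY
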