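import Pool.Agent.K6.H14.EY.Defs
import Pool.Agent.K6.H14.EX.EXT

/-!
# Transfer of the results of `EX` to the definitions of `EY`
-/

set_option autoImplicit false

namespace Pool.Agent.K6.H14.EY

open Pool.Agent.H504R3 (TVN)
open Pool.Agent.K6.H14.EX (tvn lamT iotaT S_KAP)
open Filter Topology
open scoped InnerProductSpace BoundedContinuousFunction

/-- the trace as a function -/
noncomputable def tr (T : TVN) : T.E → ℂ := fun x => T.τ x

theorem norm2_tr (T : TVN) (x : T.E) : norm2 (tr T) x = T.norm2 x := rfl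

theorem norm_eq_op (T : TVN) (x : T.E) : ‖x‖ = T.opNorm x := rfl

theorem isTracialVN (T : TVN) : IsTracialVN (tr T) where
  add x y := map_add T.τ x y
  smul c x := map_smul T.τ c x
  one := T.map_one
  tracial := T.tracial
  faithful := T.faithful
  vonNeumann := by
    obtain ⟨ξ, h1, h2⟩ := T.normal
    refine ⟨T.H, inferInstance, inferInstance, inferInstance, T.N, fun x => (x : T.H →L[ℂ] T.H), ξ,
      ⟨rfl, fun _ _ => rfl, fun _ _ => rfl, fun _ _ => rfl, fun _ => rfl, fun _ => rfl, ?_⟩, h1, h2⟩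
    intro y
    constructor
    · intro h
      exact ⟨⟨y, h⟩, rfl⟩
    · rintro ⟨x, rfl⟩
      exact x.2

theorem isIIOneFactor {T : TVN} (h : T.IsIIOneFactor) : IsIIOneFactor T.E :=
  ⟨h.center, h.infinite⟩

theorem hasHaagerup {T : TVN} (h : EX.HasHaagerup T) : HasHaagerup (tr T) := by
  intro F ε hε
  obtain ⟨φ, hφ, hF⟩ := h F ε hε
  refine ⟨fun x => φ x, ⟨fun x y => map_add φ x y, fun c x => map_smul φ c x, hφ.one, hφ.trace,
    ?_, hφ.compact⟩, hF⟩
  intro k x y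
  obtain ⟨ξ, h1, h2⟩ := T.normal
  have h3 : ∀ n : ℕ, ∃ r : ℝ, 0 ≤ r ∧
      ∑ i, ∑ j, ⟪(y i : T.H →L[ℂ] T.H) (ξ n), ((φ (star (x i) * x j) : T.E) : T.H →L[ℂ] T.H)
        ((y j : T.H →L[ℂ] T.H) (ξ n))⟫_ℂ = (r : ℂ) :=
    fun n => hφ.cp k x (fun i => (y i : T.H →L[ℂ] T.H) (ξ n))
  choose r hr0 hr using h3
  refine ⟨∑' n, r n, tsum_nonneg hr0, ?_⟩
  show T.τ _ = _
  rw [h2, Complex.ofReal_tsum]
  refine tsum_congr fun n => ?_
  rw [← hr n]
  have e : ((∑ i, ∑ j, star (y i) * φ (star (x i) * x j) * y j : T.E) : T.H →L[ℂ] T.H) =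
      ∑ i, ∑ j, star (y i : T.H →L[ℂ] T.H) * ((φ (star (x i) * x j) : T.E) : T.H →L[ℂ] T.H) *
        (y j : T.H →L[ℂ] T.H) := by
    have h4 := map_sum (T.N.toStarSubalgebra.subtype)
      (fun i => ∑ j, star (y i) * φ (star (x i) * x j) * y j) Finset.univ
    refine h4.trans (Finset.sum_congr rfl fun i _ => ?_)
    exact map_sum (T.N.toStarSubalgebra.subtype)
      (fun j => star (y i) * φ (star (x i) * x j) * y j) Finset.univ
  rw [e, _root_.sum_apply, inner_sum]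
  refine Finset.sum_congr rfl fun i _ => ?_
  rw [_root_.sum_apply, inner_sum]
  refine Finset.sum_congr rfl fun j _ => ?_
  rw [ContinuousLinearMap.star_eq_adjoint]
  show ⟪ξ n, ContinuousLinearMap.adjoint (y i : T.H →L[ℂ] T.H)
    (((φ (star (x i) * x j) : T.E) : T.H →L[ℂ] T.H) ((y j : T.H →L[ℂ] T.H) (ξ n)))⟫_ℂ = _
  rw [ContinuousLinearMap.adjoint_inner_right]

theorem isExistential {N M : TVN} {ι : N.E →⋆ₐ[ℂ] M.E} {U : Ultrafilter ℕ}
    (h : EX.IsExistential ι U) : IsExistential (tr N) (tr M) ι U := h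

theorem isGroupVN (hK : S_KAP) (G : Type) [Group G] : IsGroupVN (tr (tvn G)) (lamT (G := G)) where
  one := map_one (EX.Ext.lamHom G)
  mul := map_mul (EX.Ext.lamHom G)
  star := EX.Ext.star_lamT
  trace g hg := by
    classical
    have h := EX.Ext.tau_lamT g
    rw [if_neg hg] at h
    exact h
  dense x ε hε := by
    obtain ⟨y, hy, -, h⟩ := hK G x ε hε
    exact ⟨y, hy, h⟩

theorem kazhdanT {G : Type} [Group G] (h : EX.KazhdanT G) : KazhdanT G := by
  obtain ⟨S, ε, hε, h⟩ := h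
  refine ⟨S, ε, hε, ?_⟩
  intro K _ _ _ ρ hρ hx
  have hmul : ∀ g, ρ g⁻¹ * ρ g = 1 := fun g => by rw [← hρ.mul, inv_mul_cancel, hρ.one]
  have hmul' : ∀ g, ρ g * ρ g⁻¹ = 1 := fun g => by rw [← hρ.mul, mul_inv_cancel, hρ.one]
  have h1 : ∀ g, star (ρ g) * ρ g = 1 := by
    intro g
    ext x
    refine ext_inner_left ℂ fun y => ?_
    show ⟪y, star (ρ g) (ρ g x)⟫_ℂ = ⟪y, x⟫_ℂ
    rw [ContinuousLinearMap.star_eq_adjoint, ContinuousLinearMap.adjoint_inner_right]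
    let f : K →ₗᵢ[ℂ] K := ⟨(ρ g : K →ₗ[ℂ] K), hρ.isometry g⟩
    exact f.inner_map_map y x
  have h2 : ∀ g, star (ρ g) = ρ g⁻¹ := by
    intro g
    calc star (ρ g) = star (ρ g) * (ρ g * ρ g⁻¹) := by rw [hmul', mul_one]
      _ = ρ g⁻¹ := by rw [← mul_assoc, h1, one_mul]
  let ρ' : G →* unitary (K →L[ℂ] K) :=
    { toFun := fun g => ⟨ρ g, by
        rw [Unitary.mem_iff, h2]
        exact ⟨hmul g, hmul' g⟩⟩
      map_one' := Subtype.ext hρ.one
      map_mul' := fun g h => Subtype.ext (hρ.mul g h) }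
  exact h K ρ' hx

end Pool.Agent.K6.H14.EY
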